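import Pool.Agent.helper37.CZ.SpecD

/-!
# Row cz:EEX: the matrix with the coefficients `ecoef`
-/

set_option autoImplicit false

open scoped Matrix Topology ComplexConjugate
open Filter

namespace Pool.Agent.CZ

/-- a common positive lower bound of the functions `h q` -/
theorem EEX_min {X : Type} [TopologicalSpace X] [CompactSpace X] (α : X ≃ₜ X) {Q : Type} [Fintype Q]
    (w : Q → C(X, ℂ)) (h : Q → C(X, ℝ)) (hL : LSys α w h) :
    ∃ δ : ℝ, 0 < δ ∧ ∀ q x, δ ≤ h q x := by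
  have h1 : ∀ q, ∃ δ : ℝ, 0 < δ ∧ ∀ x, δ ≤ h q x := by
    intro q
    rcases isEmpty_or_nonempty X with hX | hX
    · exact ⟨1, one_pos, fun x => (hX.false x).elim⟩
    · obtain ⟨x₀, _, hx₀⟩ := IsCompact.exists_isMinOn (isCompact_univ (X := X)) Set.univ_nonempty
        (h q).continuous.continuousOn
      exact ⟨h q x₀, (hL q).2 x₀, fun x => hx₀ (Set.mem_univ x)⟩
  choose δ hδ hδ' using h1
  rcases isEmpty_or_nonempty Q with hQ | hQ
  · exact ⟨1, one_pos, fun q => (hQ.false q).elim⟩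
  · obtain ⟨q₀, hq₀⟩ := Finite.exists_min δ
    exact ⟨δ q₀, hδ q₀, fun q x => (hq₀ q).trans (hδ' q x)⟩

theorem EEX_cont (h1 : CSM_stmt) (h2 : PE1_stmt) {X : Type} [TopologicalSpace X]
    (α : X ≃ₜ X) {Q : Type} [Fintype Q] (w : Q → C(X, ℂ)) (h : Q → C(X, ℝ)) {K : ℕ}
    (φ : Fin K → Q → X → ℝ → ℂ) (hL : LSys α w h) (hF : Fam α w h φ) (i j : Fin K) (n : ℤ) :
    Continuous (ecoef α w h φ i j n) := by
  unfold ecoef
  refine continuous_finsetSum _ fun q _ => ?_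
  obtain ⟨R, hR⟩ := hF.supp
  refine h2 X (fun x => w q x) (w q).continuous (hL q).1.1
    (fun x τ => φ i q x τ * φ j q ((α ^ (-n)) x) (τ + csum α (h q) (-n) x)) ?_
    ⟨R, fun y τ hτ => by rw [hR i q y τ hτ, zero_mul]⟩
  refine (hF.cont i q).mul ?_
  have hc : Continuous
      (fun p : X × ℝ => (((α ^ (-n)) p.1, p.2 + csum α (h q) (-n) p.1) : X × ℝ)) :=
    ((α ^ (-n)).continuous.comp continuous_fst).prodMk
      (continuous_snd.add (((h1 X α (h q)).2.2.2.1 (-n)).comp continuous_fst))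
  exact (hF.cont j q).comp hc

theorem EEX_fin (h1 : CSM_stmt) {X : Type} [TopologicalSpace X] [CompactSpace X]
    (α : X ≃ₜ X) {Q : Type} [Fintype Q] (w : Q → C(X, ℂ)) (h : Q → C(X, ℝ)) {K : ℕ}
    (φ : Fin K → Q → X → ℝ → ℂ) (hL : LSys α w h) (hF : Fam α w h φ) :
    ∃ B : ℕ, ∀ (i j : Fin K) (n : ℤ) (x : X), (B : ℤ) < |n| → ecoef α w h φ i j n x = 0 := by
  obtain ⟨R, hR⟩ := hF.supp
  obtain ⟨δ, hδ, hδ'⟩ := EEX_min α w h hL
  obtain ⟨B, hB⟩ := exists_nat_gt (2 * R / δ)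
  rw [div_lt_iff₀ hδ] at hB
  refine ⟨B, fun i j n x hn => ?_⟩
  unfold ecoef
  refine Finset.sum_eq_zero fun q _ => ?_
  have hn' : (B : ℝ) < |(n : ℝ)| := by exact_mod_cast hn
  have hS : 2 * R < |csum α (h q) (-n) x| := by
    obtain ⟨e1, e2⟩ := (h1 X α (h q)).2.2.2.2.1 δ (hδ' q) (-n) x
    rcases le_total 0 (-n) with h0 | h0
    · have e3 := e1 h0
      have h0' : (0 : ℝ) ≤ -(n : ℝ) := by exact_mod_cast h0
      push_cast at e3
      rw [abs_of_nonpos (by linarith)] at hn'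
      have e4 := le_abs_self (csum α (h q) (-n) x)
      nlinarith
    · have e3 := e2 h0
      have h0' : -(n : ℝ) ≤ 0 := by exact_mod_cast h0
      push_cast at e3
      rw [abs_of_nonneg (by linarith)] at hn'
      have e4 := neg_abs_le (csum α (h q) (-n) x)
      nlinarith
  have hz : ∀ τ : ℝ, φ i q x τ * φ j q ((α ^ (-n)) x) (τ + csum α (h q) (-n) x) = 0 := by
    intro τ
    by_cases h3 : R < |τ|
    · rw [hR i q x τ h3, zero_mul]
    · rw [not_lt] at h3
      have h4 : R < |τ + csum α (h q) (-n) x| := by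
        have h5 : |csum α (h q) (-n) x| ≤ |τ + csum α (h q) (-n) x| + |τ| := by
          have h6 : csum α (h q) (-n) x = (τ + csum α (h q) (-n) x) - τ := by ring
          calc |csum α (h q) (-n) x| = |(τ + csum α (h q) (-n) x) - τ| := by rw [← h6]
            _ ≤ |τ + csum α (h q) (-n) x| + |τ| := abs_sub _ _
        linarith
      rw [hR j q _ _ h4, mul_zero]
  unfold fsum
  exact (tsum_congr fun k => hz _).trans tsum_zero

theorem EEX (h1 : CSM_stmt) (h2 : PE1_stmt) : EEX_stmt := by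
  intro X _ _ α A _ ι u Q _ w h K φ hL hF
  obtain ⟨B, hB⟩ := EEX_fin h1 α w h φ hL hF
  refine ⟨fun i j => ∑ᶠ n : ℤ, ι ⟨ecoef α w h φ i j n, EEX_cont h1 h2 α w h φ hL hF i j n⟩ *
    up u n, fun i j => ⟨fun n => ⟨ecoef α w h φ i j n, EEX_cont h1 h2 α w h φ hL hF i j n⟩,
      ⟨?_, rfl⟩, fun n x => rfl⟩⟩
  refine (Set.finite_Icc (-(B : ℤ)) (B : ℤ)).subset ?_
  intro n hn
  rw [Function.mem_support] at hn
  by_contra hcon
  apply hn
  refine ContinuousMap.ext fun x => ?_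
  show ecoef α w h φ i j n x = 0
  refine hB i j n x ?_
  rw [Set.mem_Icc, ← abs_le, not_le] at hcon
  exact hcon

end Pool.Agent.CZ
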