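import Pool.Agent.helper37.CZ.SpecD

/-!
# Row cz:TV2: tracial states vanish on the kernel of `D`
-/

set_option autoImplicit false

open scoped Matrix Topology ComplexConjugate
open Filter

namespace Pool.Agent.CZ

/-- a tracial state of a smooth element depends only on the coefficient 0 -/
theorem TV2_sm (h1 : SMC_stmt) (h3 : POS_stmt) (h4 : TV1_stmt) {X : Type} [TopologicalSpace X]
    [CompactSpace X] [T2Space X] [Infinite X] (α : X ≃ₜ X) {A : Type} [CStarAlgebra A]
    (ι : C(X, ℂ) →⋆ₐ[ℂ] A) (u : unitary A) (c : ℤ → A →ₗ[ℂ] C(X, ℂ)) (hc : Cov α ι u c)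
    (hmin : IsMinimal α) (t : TracialState A) (a : A) (ha : Sm ι u a) :
    t.τ a = t.τ (ι (c 0 a)) := by
  obtain ⟨s, _, f, _, hf⟩ := ha
  obtain ⟨C, hC⟩ := h3 A t
  have hsum : HasSum (fun j : ℤ => t.τ (ι (f j) * up u j)) (t.τ a) := by
    have := (t.τ.mkContinuous C hC).hasSum hf
    exact this
  have hsum' : HasSum (fun j : ℤ => t.τ (ι (f j) * up u j)) (t.τ (ι (f 0) * up u 0)) := by
    refine hasSum_single 0 fun j hj => ?_
    exact h4 X α A ι u c hc hmin t j (f j) hj
  have h0 : up u 0 = 1 := by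
    unfold up
    rw [zpow_zero]
    rfl
  rw [hsum.unique hsum', h0, mul_one, h1 X α A ι u c hc f a hf 0]

/-- a tracial state vanishes on coboundaries -/
theorem TV2_bd {X : Type} [TopologicalSpace X] [CompactSpace X] (α : X ≃ₜ X) {A : Type}
    [CStarAlgebra A] (ι : C(X, ℂ) →⋆ₐ[ℂ] A) (u : unitary A) (c : ℤ → A →ₗ[ℂ] C(X, ℂ))
    (hc : Cov α ι u c) (t : TracialState A) (f : C(X, ℂ)) (hf : f ∈ Bd α) : t.τ (ι f) = 0 := by
  obtain ⟨g, hg⟩ := hf
  have hfe : f = g.comp (α : C(X, X)) - g := by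
    refine ContinuousMap.ext fun x => ?_
    rw [hg x]
    rfl
  have hge : (g.comp (α : C(X, X))).comp (α.symm : C(X, X)) = g := by
    refine ContinuousMap.ext fun x => ?_
    show g (α (α.symm x)) = g x
    rw [Homeomorph.apply_symm_apply]
  have hcov := hc.cov (g.comp (α : C(X, X)))
  rw [hge] at hcov
  have hτ : t.τ (ι g) = t.τ (ι (g.comp (α : C(X, X)))) := by
    rw [← hcov, t.comm, ← mul_assoc, Unitary.coe_star_mul_self, one_mul]
  rw [hfe, map_sub, map_sub, ← hτ, sub_self]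

theorem TV2 (h1 : SMC_stmt) (h2 : KSM_stmt) (h3 : POS_stmt) (h4 : TV1_stmt) : TV2_stmt := by
  intro X _ _ _ _ α A _ ι u c hc hmin D hD t
  let T0 : C(X, ℂ) →+ ℂ :=
    { toFun := fun f => t.τ (ι f)
      map_zero' := by rw [map_zero, map_zero]
      map_add' := fun f g => by rw [map_add, map_add] }
  let T : C(X, ℂ) ⧸ Bd α →+ ℂ :=
    QuotientAddGroup.lift (Bd α) T0 (fun f hf => TV2_bd α ι u c hc t f hf)
  have hsm : ∀ p : IdemMat A, SmM ι u p.e → pair t (cls p) = T (D (cls p)) := by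
    intro p hp
    rw [hD p hp]
    show (FreeAbelianGroup.lift (fun p : IdemMat A => ∑ i, t.τ (p.e i i))) (FreeAbelianGroup.of p) =
      t.τ (ι (∑ i, c 0 (p.e i i)))
    rw [FreeAbelianGroup.lift_apply_of, map_sum, map_sum]
    exact Finset.sum_congr rfl fun i _ =>
      TV2_sm h1 h3 h4 α ι u c hc hmin t (p.e i i) (hp i i)
  have hall : ∀ p : IdemMat A, pair t (cls p) = T (D (cls p)) := by
    intro p
    obtain ⟨q, _, hq, _, hpq⟩ := h2 X α A ι u c hc p
    rw [hpq]
    exact hsm q hq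
  have heq : pair t = T.comp D := by
    refine QuotientAddGroup.addMonoidHom_ext _ ?_
    refine FreeAbelianGroup.lift_ext _ _ fun p => ?_
    exact hall p
  intro g hg
  rw [heq, AddMonoidHom.comp_apply, hg, map_zero]

end Pool.Agent.CZ
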